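import Mathlib

/-!
# Killing finitely many functions on a large quotient
-/

open Finset Module

namespace H70.TG

theorem zmod2_cases (t : ZMod 2) : t = 0 ∨ t = 1 := by
  revert t; decide

theorem kill {κ V : Type} [Fintype κ] [Fintype V] [AddCommGroup V] [Module (ZMod 2) V]
    (p : κ → V → ZMod 2) (z : ℕ)
    (h : Fintype.card κ * 2 ^ z + z ≤ finrank (ZMod 2) V) :
    ∃ α : V →ₗ[ZMod 2] (Fin z → ZMod 2), Function.Surjective α ∧
      ∀ k, ∀ y ≠ 0, ∑ x with α x = y, p k x = 0 := by
  classical
  induction z with
  | zero =>
    refine ⟨0, fun y => ⟨0, Subsingleton.elim _ _⟩, fun k y hy => (hy (Subsingleton.elim _ _)).elim⟩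
  | succ z ih =>
    obtain ⟨α, hα, hk⟩ := ih (by
      rw [pow_succ] at h
      nlinarith [Nat.zero_le (Fintype.card κ * 2 ^ z)])
    let Θ : Module.Dual (ZMod 2) V →ₗ[ZMod 2] (κ × (Fin z → ZMod 2) → ZMod 2) :=
      LinearMap.pi (fun ky => ∑ x with α x = ky.2, p ky.1 x • Module.Dual.eval (ZMod 2) V x)
    have hΘ : ∀ a ky, Θ a ky = ∑ x with α x = ky.2, p ky.1 x * a x := by
      intro a ky
      simp [Θ, LinearMap.sum_apply, Module.Dual.eval_apply]
    have hker : finrank (ZMod 2) V ≤
        Fintype.card κ * 2 ^ z + finrank (ZMod 2) (LinearMap.ker Θ) := by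
      have h1 := LinearMap.finrank_range_add_finrank_ker Θ
      rw [Subspace.dual_finrank_eq] at h1
      have h2 : finrank (ZMod 2) (LinearMap.range Θ) ≤ Fintype.card κ * 2 ^ z := by
        refine (Submodule.finrank_le _).trans ?_
        rw [Module.finrank_fintype_fun_eq_card]
        simp
      omega
    have hann : finrank (ZMod 2) (LinearMap.ker α).dualAnnihilator = z := by
      have h1 := Subspace.finrank_add_finrank_dualAnnihilator_eq (LinearMap.ker α)
      have h2 := LinearMap.finrank_range_add_finrank_ker α
      rw [LinearMap.range_eq_top.2 hα, finrank_top] at h2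
      simp at h2
      omega
    have hnot : ¬ LinearMap.ker Θ ≤ (LinearMap.ker α).dualAnnihilator := by
      intro hle
      have := Submodule.finrank_mono hle
      rw [pow_succ] at h
      have h3 : 0 ≤ Fintype.card κ * 2 ^ z := Nat.zero_le _
      nlinarith
    rw [SetLike.not_le_iff_exists] at hnot
    obtain ⟨a, haΘ, ha⟩ := hnot
    rw [Submodule.mem_dualAnnihilator] at ha
    push Not at ha
    obtain ⟨x0, hx0, hax0⟩ := ha
    rw [LinearMap.mem_ker] at haΘ hx0
    have hax1 : a x0 = 1 := (zmod2_cases (a x0)).resolve_left hax0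
    have hcond : ∀ k y, ∑ x with α x = y, p k x * a x = 0 := by
      intro k y
      have := congrFun haΘ (k, y)
      rw [hΘ] at this
      exact this
    let α' : V →ₗ[ZMod 2] (Fin (z + 1) → ZMod 2) :=
      LinearMap.pi (Fin.cons a (fun i => (LinearMap.proj i) ∘ₗ α))
    have hα' : ∀ x, α' x = Fin.cons (a x) (α x) := by
      intro x
      funext i
      refine Fin.cases ?_ (fun j => ?_) i
      · simp [α']
      · simp [α']
    have hiff : ∀ x y, α' x = y ↔ a x = y 0 ∧ α x = Fin.tail y := by
      intro x y
      rw [hα']
      constructor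
      · rintro rfl
        simp
      · rintro ⟨h1, h2⟩
        rw [h1, h2, Fin.cons_self_tail]
    refine ⟨α', ?_, ?_⟩
    · intro y
      obtain ⟨x, hx⟩ := hα (Fin.tail y)
      rcases zmod2_cases (y 0 + a x) with h0 | h1
      · refine ⟨x, (hiff _ _).2 ⟨?_, hx⟩⟩
        have : y 0 = - a x := by
          rw [eq_neg_iff_add_eq_zero]; exact h0
        rw [this, ZMod.neg_eq_self_mod_two]
      · refine ⟨x + x0, (hiff _ _).2 ⟨?_, ?_⟩⟩
        · rw [map_add, hax1, ← h1]
          have : a x + (y 0 + a x) = y 0 + (a x + a x) := by ring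
          rw [this, CharTwo.add_self_eq_zero, add_zero]
        · rw [map_add, hx, hx0, add_zero]
    · intro k y hy
      have hone : ∀ y', ∑ x with (a x = 1 ∧ α x = y'), p k x = 0 := by
        intro y'
        rw [← hcond k y', Finset.sum_filter, Finset.sum_filter]
        apply Finset.sum_congr rfl
        intro x _
        rcases zmod2_cases (a x) with h0 | h1
        · rw [h0]; simp
        · rw [h1]; simp
      have hset : (univ.filter fun x => α' x = y) =
          univ.filter fun x => (a x = y 0 ∧ α x = Fin.tail y) := by
        ext x; simp [hiff]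
      rw [hset]
      rcases zmod2_cases (y 0) with h0 | h1
      · have hy' : Fin.tail y ≠ 0 := by
          intro h'
          apply hy
          rw [← Fin.cons_self_tail y, h', h0]
          funext i
          refine Fin.cases ?_ (fun j => ?_) i <;> simp
        have hs := hk k _ hy'
        have hsplit : ∑ x with α x = Fin.tail y, p k x =
            ∑ x with (a x = y 0 ∧ α x = Fin.tail y), p k x +
            ∑ x with (a x = 1 ∧ α x = Fin.tail y), p k x := by
          rw [h0, Finset.sum_filter, Finset.sum_filter, Finset.sum_filter, ← Finset.sum_add_distrib]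
          apply Finset.sum_congr rfl
          intro x _
          rcases zmod2_cases (a x) with h0 | h1
          · rw [h0]; simp
          · rw [h1]; simp
        rw [hone, add_zero, hs] at hsplit
        exact hsplit.symm
      · rw [h1]
        exact hone _

end H70.TG
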