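import Mathlib

/-!
# Dimension inequalities for representations of finite 2-groups over `ZMod 2`
-/

open Finset Module

namespace H70.TG

variable {G M : Type} [Group G] [AddCommGroup M] [Module (ZMod 2) M] [Module.Finite (ZMod 2) M]

/-- a nonzero stable subspace contains a nonzero fixed vector. -/
theorem exists_fixed (hG : IsPGroup 2 G) (ρ : Representation (ZMod 2) G M)
    (N : Submodule (ZMod 2) M) (hN : ∀ g, ∀ v ∈ N, ρ g v ∈ N) (hne : N ≠ ⊥) :
    ∃ v ∈ N, v ≠ 0 ∧ ∀ g, ρ g v = v := by
  classical
  have : Finite M := Module.finite_of_finite (ZMod 2)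
  have : Finite N := inferInstance
  let act : MulAction G N :=
    { smul := fun g v => ⟨ρ g v, hN g v v.2⟩
      one_smul := fun v => by
        apply Subtype.ext
        change ρ 1 (v : M) = v
        simp
      mul_smul := fun g h v => by
        apply Subtype.ext
        change ρ (g * h) (v : M) = ρ g (ρ h v)
        simp }
  have hsm : ∀ (g : G) (v : N), ((g • v : N) : M) = ρ g v := fun _ _ => rfl
  have : Fact (Nat.Prime 2) := ⟨Nat.prime_two⟩
  have hcard : 2 ∣ Nat.card N := by
    rw [Module.natCard_eq_pow_finrank (K := ZMod 2) (V := N)]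
    have : 0 < finrank (ZMod 2) N := by
      rw [Module.finrank_pos_iff]
      rw [Submodule.nontrivial_iff_ne_bot]
      exact hne
    simp only [Nat.card_zmod]
    exact dvd_pow_self 2 this.ne'
  have h0 : (0 : N) ∈ MulAction.fixedPoints G N := by
    intro g
    apply Subtype.ext
    rw [hsm]
    simp
  obtain ⟨b, hb, hb0⟩ := hG.exists_fixed_point_of_prime_dvd_card_of_fixed_point N hcard h0
  refine ⟨b, b.2, fun h => hb0 (Subtype.ext h.symm), fun g => ?_⟩
  have := hb g
  rw [← hsm, this]

/-- the norm (sum over the group). -/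
noncomputable def nrm [Fintype G] (ρ : Representation (ZMod 2) G M) : M →ₗ[ZMod 2] M := ∑ g, ρ g

theorem finrank_bounds [Fintype G] (hG : IsPGroup 2 G) (ρ : Representation (ZMod 2) G M) :
    finrank (ZMod 2) M ≤ Fintype.card G * finrank (ZMod 2) ρ.invariants ∧
    finrank (ZMod 2) M ≤ (Fintype.card G - 1) * finrank (ZMod 2) ρ.invariants +
      finrank (ZMod 2) (LinearMap.range (nrm ρ)) := by
  classical
  obtain ⟨π, hπ⟩ := Submodule.exists_isCompl ρ.invariants |>.elim
    (fun q hq => (⟨Submodule.linearProjOfIsCompl _ q hq, fun x =>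
      Submodule.linearProjOfIsCompl_apply_left hq x⟩ :
      ∃ π : M →ₗ[ZMod 2] ρ.invariants, ∀ x : ρ.invariants, π (x : M) = x))
  let Φ : M →ₗ[ZMod 2] (G → ρ.invariants) := LinearMap.pi (fun g => π ∘ₗ ρ g)
  have hΦ : ∀ v g, Φ v g = π (ρ g v) := fun v g => rfl
  have hinj : LinearMap.ker Φ = ⊥ := by
    by_contra hne
    obtain ⟨v, hv, hv0, hfix⟩ := exists_fixed hG ρ (LinearMap.ker Φ) (by
      intro g v hv
      rw [LinearMap.mem_ker] at hv ⊢
      funext h
      have := congrFun hv (h * g)
      rw [hΦ] at this ⊢
      rw [map_mul] at this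
      exact this) hne
    apply hv0
    rw [LinearMap.mem_ker] at hv
    have h1 := congrFun hv 1
    rw [hΦ] at h1
    have hmem : v ∈ ρ.invariants := (Representation.mem_invariants ρ v).2 hfix
    have h2 := hπ ⟨v, hmem⟩
    rw [hfix 1] at h1
    simp only [Pi.zero_apply] at h1
    rw [h1] at h2
    exact (congrArg Subtype.val h2).symm
  have hinj' : Function.Injective Φ := LinearMap.ker_eq_bot.1 hinj
  constructor
  · have := LinearMap.finrank_le_finrank_of_injective hinj'
    rw [Module.finrank_pi_fintype] at this
    simpa [Finset.sum_const, Finset.card_univ] using this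
  · have hrn := LinearMap.finrank_range_add_finrank_ker (nrm ρ)
    -- sum map
    let S : (G → ρ.invariants) →ₗ[ZMod 2] ρ.invariants := ∑ g, LinearMap.proj g
    have hS : ∀ φ, S φ = ∑ g, φ g := by
      intro φ
      simp [S]
    have hSsurj : LinearMap.range S = ⊤ := by
      rw [LinearMap.range_eq_top]
      intro x
      refine ⟨Pi.single 1 x, ?_⟩
      rw [hS]
      simp
    have hkS : finrank (ZMod 2) (LinearMap.ker S) + finrank (ZMod 2) ρ.invariants =
        Fintype.card G * finrank (ZMod 2) ρ.invariants := by
      have h1 := LinearMap.finrank_range_add_finrank_ker S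
      rw [hSsurj, finrank_top, Module.finrank_pi_fintype] at h1
      simp only [Finset.sum_const, Finset.card_univ, smul_eq_mul] at h1
      omega
    have hle : finrank (ZMod 2) (LinearMap.ker (nrm ρ)) ≤ finrank (ZMod 2) (LinearMap.ker S) := by
      let Ψ : LinearMap.ker (nrm ρ) →ₗ[ZMod 2] LinearMap.ker S :=
        LinearMap.codRestrict _ (Φ ∘ₗ (LinearMap.ker (nrm ρ)).subtype) (by
          intro v
          rw [LinearMap.mem_ker, hS]
          simp only [LinearMap.comp_apply, Submodule.subtype_apply, hΦ]
          rw [← map_sum]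
          have : (∑ g, ρ g (v : M)) = nrm ρ (v : M) := by
            change _ = (∑ g, ρ g) (v : M)
            exact (LinearMap.sum_apply _ _ _).symm
          rw [this, LinearMap.mem_ker.1 v.2, map_zero])
      apply LinearMap.finrank_le_finrank_of_injective (f := Ψ)
      intro x y hxy
      apply Subtype.ext
      apply hinj'
      exact congrArg Subtype.val hxy
    have hc : 1 ≤ Fintype.card G := Fintype.card_pos
    have : (Fintype.card G - 1) * finrank (ZMod 2) ρ.invariants =
        finrank (ZMod 2) (LinearMap.ker S) := by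
      rw [Nat.sub_mul, one_mul, ← hkS]
      omega
    omega

end H70.TG
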