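import Mathlib
import Pool.Agent.H70R2.TG.Rep
import Pool.Agent.H70R2.TG.Kill

/-!
# Translation invariant codes: the invariant functional
-/

open Finset Module

namespace H70.TG

variable {V W : Type}

/-- pullback code: the functions `h : Z → W` with `h ∘ β ∈ C`. -/
def pull {P Z : Type} [AddCommGroup W] [Module (ZMod 2) W] (β : P → Z)
    (C : Submodule (ZMod 2) (P → W)) : Submodule (ZMod 2) (Z → W) :=
  C.comap (LinearMap.funLeft (ZMod 2) W β)

theorem mem_pull {P Z : Type} [AddCommGroup W] [Module (ZMod 2) W] {β : P → Z}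
    {C : Submodule (ZMod 2) (P → W)} {h : Z → W} : h ∈ pull β C ↔ (fun x => h (β x)) ∈ C :=
  Iff.rfl

/-- translation invariance. -/
def TI [AddCommGroup V] [AddCommGroup W] [Module (ZMod 2) W]
    (C : Submodule (ZMod 2) (V → W)) : Prop :=
  ∀ v, ∀ f ∈ C, (fun x => f (x + v)) ∈ C

/-- no nonzero word is supported on a subspace of codimension `u`. -/
def Good [AddCommGroup V] [Module (ZMod 2) V] [AddCommGroup W] [Module (ZMod 2) W] (u : ℕ)
    (C : Submodule (ZMod 2) (V → W)) : Prop :=
  ∀ β : V →ₗ[ZMod 2] (Fin u → ZMod 2), Function.Surjective β → ∀ f ∈ C,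
    (∀ x, β x ≠ 0 → f x = 0) → f = 0

theorem pull_TI [AddCommGroup V] [Module (ZMod 2) V] [AddCommGroup W] [Module (ZMod 2) W]
    {Z : Type} [AddCommGroup Z] [Module (ZMod 2) Z] {C : Submodule (ZMod 2) (V → W)} (hC : TI C)
    (β : V →ₗ[ZMod 2] Z) (hβ : Function.Surjective β) : TI (pull β C) := by
  intro z h hh
  obtain ⟨v, rfl⟩ := hβ z
  rw [mem_pull] at hh ⊢
  have := hC v _ hh
  simpa using this

theorem pull_Good [AddCommGroup V] [Module (ZMod 2) V] [AddCommGroup W] [Module (ZMod 2) W]
    {Z : Type} [AddCommGroup Z] [Module (ZMod 2) Z] {u : ℕ} {C : Submodule (ZMod 2) (V → W)}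
    (hC : Good u C) (β : V →ₗ[ZMod 2] Z) (hβ : Function.Surjective β) : Good u (pull β C) := by
  intro γ hγ h hh hsupp
  rw [mem_pull] at hh
  have := hC (γ ∘ₗ β) (hγ.comp hβ) _ hh (fun x hx => hsupp _ hx)
  funext z
  obtain ⟨v, rfl⟩ := hβ z
  exact congrFun this v

theorem isPGroup_mult (u : ℕ) : IsPGroup 2 (Multiplicative (Fin u → ZMod 2)) := by
  apply IsPGroup.of_card (n := u)
  rw [Nat.card_congr Multiplicative.toAdd]
  simp

theorem exists_func [Fintype V] [AddCommGroup V] [Module (ZMod 2) V] [AddCommGroup W]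
    [Module (ZMod 2) W] [Module.Finite (ZMod 2) W] [Nontrivial W] {u : ℕ}
    {C : Submodule (ZMod 2) (V → W)} (hTI : TI C) (hG : Good u C)
    (α : V →ₗ[ZMod 2] (Fin u → ZMod 2)) (hα : Function.Surjective α) :
    ∃ (Λ : (V → W) →ₗ[ZMod 2] ZMod 2) (s : W →ₗ[ZMod 2] ZMod 2), s ≠ 0 ∧ (∀ f ∈ C, Λ f = 0) ∧
      ∀ h : (Fin u → ZMod 2) → W, Λ (fun x => h (α x)) = ∑ y, s (h y) := by
  classical
  set D := pull α C with hD
  have hDTI : TI D := pull_TI hTI α hα
  obtain ⟨w, hw⟩ := exists_ne (0 : W)
  have hlt : D < ⊤ := by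
    rw [lt_top_iff_ne_top]
    intro htop
    have hmem : (Pi.single 0 w : (Fin u → ZMod 2) → W) ∈ D := by rw [htop]; trivial
    rw [hD, mem_pull] at hmem
    have h0 := hG α hα _ hmem (by
      intro x hx
      rw [Pi.single_eq_of_ne hx])
    have := congrFun h0 0
    simp at this
    exact hw this
  obtain ⟨l0, hl00, hle⟩ := D.exists_le_ker_of_lt_top hlt
  -- the representation on the dual
  let T : (Fin u → ZMod 2) → ((Fin u → ZMod 2) → W) →ₗ[ZMod 2] ((Fin u → ZMod 2) → W) :=
    fun y => LinearMap.funLeft (ZMod 2) W (fun x => x + y)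
  have hT : ∀ y h x, T y h x = h (x + y) := fun _ _ _ => rfl
  let ρ : Representation (ZMod 2) (Multiplicative (Fin u → ZMod 2))
      (Module.Dual (ZMod 2) ((Fin u → ZMod 2) → W)) :=
    { toFun := fun y => (T (Multiplicative.toAdd y)).dualMap
      map_one' := by
        ext l h
        simp only [toAdd_one, LinearMap.dualMap_apply, LinearMap.coe_comp, Function.comp_apply,
          Module.End.one_apply]
        congr 1
        funext x
        rw [hT, add_zero]
      map_mul' := by
        intro y y'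
        apply LinearMap.ext
        intro l
        apply LinearMap.ext
        intro h
        simp only [toAdd_mul, LinearMap.dualMap_apply, Module.End.mul_apply]
        congr 1
        funext x
        rw [hT, hT, hT]
        congr 1
        abel }
  have hρ : ∀ y l h, ρ y l h = l (T (Multiplicative.toAdd y) h) := fun _ _ _ => rfl
  obtain ⟨lam, hlN, hl0, hfix⟩ := exists_fixed (isPGroup_mult u) ρ D.dualAnnihilator (by
    intro g l hl
    rw [Submodule.mem_dualAnnihilator] at hl ⊢
    intro h hh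
    rw [hρ]
    exact hl _ (hDTI _ _ hh)) (by
    intro hbot
    apply hl00
    have : l0 ∈ D.dualAnnihilator := by
      rw [Submodule.mem_dualAnnihilator]
      intro h hh
      exact LinearMap.mem_ker.1 (hle hh)
    rw [hbot] at this
    exact this)
  let s : W →ₗ[ZMod 2] ZMod 2 := lam ∘ₗ LinearMap.single (ZMod 2) (fun _ => W) 0
  have hs : ∀ y w, lam (Pi.single y w) = s w := by
    intro y w
    have h1 := congrArg (fun l => l (Pi.single y w)) (hfix (Multiplicative.ofAdd y))
    simp only [hρ, toAdd_ofAdd] at h1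
    rw [← h1]
    change _ = lam (Pi.single 0 w)
    congr 1
    funext x
    rw [hT]
    by_cases hx : x = 0
    · subst hx; simp
    · rw [Pi.single_eq_of_ne hx, Pi.single_eq_of_ne]
      intro h'
      apply hx
      simpa using h'
  have hsum : ∀ h, lam h = ∑ y, s (h y) := by
    intro h
    conv_lhs => rw [← Finset.univ_sum_single h]
    rw [map_sum]
    exact Finset.sum_congr rfl (fun y _ => hs y _)
  have hs0 : s ≠ 0 := by
    intro h0
    apply hl0
    apply LinearMap.ext
    intro h
    rw [hsum, h0]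
    simp
  -- extension
  let T2 : ((Fin u → ZMod 2) → W) →ₗ[ZMod 2] ((V → W) ⧸ C) :=
    C.mkQ ∘ₗ LinearMap.funLeft (ZMod 2) W α
  have hkerT2 : LinearMap.ker T2 = D := by
    ext h
    rw [LinearMap.mem_ker, hD, mem_pull]
    simp only [T2, LinearMap.comp_apply, Submodule.mkQ_apply, Submodule.Quotient.mk_eq_zero]
    rfl
  have hmem : lam ∈ LinearMap.range T2.dualMap := by
    rw [LinearMap.range_dualMap_eq_dualAnnihilator_ker, hkerT2]
    exact hlN
  obtain ⟨lam', hlam'⟩ := hmem
  refine ⟨lam' ∘ₗ C.mkQ, s, hs0, ?_, ?_⟩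
  · intro f hf
    simp only [LinearMap.comp_apply, Submodule.mkQ_apply]
    rw [(Submodule.Quotient.mk_eq_zero C).2 hf, map_zero]
  · intro h
    rw [← hsum, ← hlam']
    rfl

end H70.TG
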