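import Mathlib
import Pool.Agent.H70R2.TG.Func

/-!
# One block
-/

open Finset Module

namespace H70.TG

variable {V W : Type}

/-- subcode of the words with values in the kernel of `s`. -/
def sub {Z : Type} [AddCommGroup W] [Module (ZMod 2) W] (s : W →ₗ[ZMod 2] ZMod 2)
    (D : Submodule (ZMod 2) (Z → W)) : Submodule (ZMod 2) (Z → W) :=
  D ⊓ LinearMap.ker (LinearMap.compLeft s Z)

theorem mem_sub {Z : Type} [AddCommGroup W] [Module (ZMod 2) W] {s : W →ₗ[ZMod 2] ZMod 2}
    {D : Submodule (ZMod 2) (Z → W)} {h : Z → W} : h ∈ sub s D ↔ h ∈ D ∧ ∀ z, s (h z) = 0 := by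
  rw [sub, Submodule.mem_inf, LinearMap.mem_ker]
  refine and_congr_right fun _ => ?_
  constructor
  · intro h0 z
    exact congrFun h0 z
  · intro h0
    funext z
    exact h0 z

/-- dimension step: `D` is a code on `Y × Z`, invariant under the translations of `Y`. -/
theorem step_dim {u : ℕ} {Z : Type} [Fintype Z] [AddCommGroup W] [Module (ZMod 2) W]
    [Module.Finite (ZMod 2) W] (s : W →ₗ[ZMod 2] ZMod 2)
    (D : Submodule (ZMod 2) ((Fin u → ZMod 2) × Z → W))
    (hinv : ∀ v, ∀ h ∈ D, (fun x : (Fin u → ZMod 2) × Z => h (x.1 + v, x.2)) ∈ D)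
    (hs : ∀ h ∈ D, ∀ z, s (∑ y, h (y, z)) = 0)
    (D2 : Submodule (ZMod 2) (Z → W))
    (hD2 : ∀ h2 : Z → W, (fun x : (Fin u → ZMod 2) × Z => h2 x.2) ∈ D → h2 ∈ D2) :
    finrank (ZMod 2) D ≤ (2 ^ u - 1) * finrank (ZMod 2) D2 + finrank (ZMod 2) (sub s D2) := by
  classical
  let ρ : Representation (ZMod 2) (Multiplicative (Fin u → ZMod 2)) D :=
    { toFun := fun v => LinearMap.codRestrict D
        ((LinearMap.funLeft (ZMod 2) W (fun x : (Fin u → ZMod 2) × Z =>
          (x.1 + Multiplicative.toAdd v, x.2))) ∘ₗ D.subtype)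
        (fun h => hinv (Multiplicative.toAdd v) h h.2)
      map_one' := by
        apply LinearMap.ext
        intro h
        apply Subtype.ext
        funext x
        change (h : (Fin u → ZMod 2) × Z → W) (x.1 + 0, x.2) = (h : (Fin u → ZMod 2) × Z → W) x
        rw [add_zero]
      map_mul' := by
        intro v v'
        apply LinearMap.ext
        intro h
        apply Subtype.ext
        funext x
        change (h : (Fin u → ZMod 2) × Z → W)
            (x.1 + (Multiplicative.toAdd v + Multiplicative.toAdd v'), x.2) =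
          (h : (Fin u → ZMod 2) × Z → W)
            (x.1 + Multiplicative.toAdd v + Multiplicative.toAdd v', x.2)
        rw [add_assoc] }
  have hρ : ∀ v (h : D) x, (ρ v h : (Fin u → ZMod 2) × Z → W) x =
      (h : (Fin u → ZMod 2) × Z → W) (x.1 + Multiplicative.toAdd v, x.2) := fun _ _ _ => rfl
  have hfb := (finrank_bounds (isPGroup_mult u) ρ).2
  have hcard : Fintype.card (Multiplicative (Fin u → ZMod 2)) = 2 ^ u := by
    rw [Fintype.card_congr Multiplicative.toAdd]
    simp
  rw [hcard] at hfb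
  -- invariants
  have hconst : ∀ h ∈ ρ.invariants, ∀ y z,
      (h : (Fin u → ZMod 2) × Z → W) (y, z) = (h : (Fin u → ZMod 2) × Z → W) (0, z) := by
    intro h hh y z
    rw [Representation.mem_invariants] at hh
    have h1 := congrArg (fun k : D => (k : (Fin u → ZMod 2) × Z → W) (0, z))
      (hh (Multiplicative.ofAdd y))
    simp only [hρ, toAdd_ofAdd, zero_add] at h1
    exact h1
  let r : (((Fin u → ZMod 2) × Z) → W) →ₗ[ZMod 2] (Z → W) :=
    LinearMap.funLeft (ZMod 2) W (fun z => ((0 : Fin u → ZMod 2), z))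
  have hr : ∀ h z, r h z = h (0, z) := fun _ _ => rfl
  have hinvle : finrank (ZMod 2) ρ.invariants ≤ finrank (ZMod 2) D2 := by
    let Ψ : ρ.invariants →ₗ[ZMod 2] D2 :=
      LinearMap.codRestrict D2 (r ∘ₗ D.subtype ∘ₗ (ρ.invariants).subtype) (by
        intro h
        apply hD2
        have : (fun x : (Fin u → ZMod 2) × Z =>
            (r ∘ₗ D.subtype ∘ₗ (ρ.invariants).subtype) h x.2) =
            ((h : D) : (Fin u → ZMod 2) × Z → W) := by
          funext x
          exact (hconst h h.2 x.1 x.2).symm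
        rw [this]
        exact (h : D).2)
    apply LinearMap.finrank_le_finrank_of_injective (f := Ψ)
    intro h h' hh
    apply Subtype.ext
    apply Subtype.ext
    funext x
    have h1 := congrArg (fun k : D2 => (k : Z → W) x.2) hh
    change ((h : D) : (Fin u → ZMod 2) × Z → W) (0, x.2) =
      ((h' : D) : (Fin u → ZMod 2) × Z → W) (0, x.2) at h1
    rw [← hconst h h.2 x.1, ← hconst h' h'.2 x.1] at h1
    exact h1
  have hnrm : ∀ (h : D) y z, (nrm ρ h : (Fin u → ZMod 2) × Z → W) (y, z) =
      ∑ y', (h : (Fin u → ZMod 2) × Z → W) (y', z) := by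
    intro h y z
    have h1 : nrm ρ h = ∑ g, ρ g h := LinearMap.sum_apply _ _ _
    rw [h1]
    have h2 : ((∑ g, ρ g h : D) : (Fin u → ZMod 2) × Z → W) =
        ∑ g, (ρ g h : (Fin u → ZMod 2) × Z → W) := by
      exact map_sum D.subtype _ _
    rw [h2, Finset.sum_apply]
    simp only [hρ]
    rw [← Equiv.sum_comp ((Equiv.addLeft y).trans (Equiv.refl _))
      (fun y' => (h : (Fin u → ZMod 2) × Z → W) (y', z))]
    exact Fintype.sum_equiv Multiplicative.toAdd _ _ (fun g => rfl)
  have hrange : finrank (ZMod 2) (LinearMap.range (nrm ρ)) ≤ finrank (ZMod 2) (sub s D2) := by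
    have hR : ∀ h ∈ LinearMap.range (nrm ρ), ∀ y z,
        (h : (Fin u → ZMod 2) × Z → W) (y, z) = (h : (Fin u → ZMod 2) × Z → W) (0, z) := by
      rintro h ⟨h1, rfl⟩ y z
      rw [hnrm, hnrm]
    let Ψ : LinearMap.range (nrm ρ) →ₗ[ZMod 2] sub s D2 :=
      LinearMap.codRestrict (sub s D2) (r ∘ₗ D.subtype ∘ₗ (LinearMap.range (nrm ρ)).subtype) (by
        intro h
        rw [mem_sub]
        constructor
        · apply hD2
          have : (fun x : (Fin u → ZMod 2) × Z =>
              (r ∘ₗ D.subtype ∘ₗ (LinearMap.range (nrm ρ)).subtype) h x.2) =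
              ((h : D) : (Fin u → ZMod 2) × Z → W) := by
            funext x
            exact (hR h h.2 x.1 x.2).symm
          rw [this]
          exact (h : D).2
        · intro z
          obtain ⟨h, h1, rfl⟩ := h
          change s ((nrm ρ h1 : (Fin u → ZMod 2) × Z → W) (0, z)) = 0
          rw [hnrm]
          exact hs _ h1.2 z)
    apply LinearMap.finrank_le_finrank_of_injective (f := Ψ)
    intro h h' hh
    apply Subtype.ext
    apply Subtype.ext
    funext x
    have h1 := congrArg (fun k : sub s D2 => (k : Z → W) x.2) hh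
    change ((h : D) : (Fin u → ZMod 2) × Z → W) (0, x.2) =
      ((h' : D) : (Fin u → ZMod 2) × Z → W) (0, x.2) at h1
    rw [← hR h h.2 x.1, ← hR h' h'.2 x.1] at h1
    exact h1
  calc finrank (ZMod 2) D ≤ (2 ^ u - 1) * finrank (ZMod 2) ρ.invariants +
        finrank (ZMod 2) (LinearMap.range (nrm ρ)) := hfb
    _ ≤ _ := Nat.add_le_add (Nat.mul_le_mul_left _ hinvle) hrange

end H70.TG
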