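import Mathlib
import Pool.Agent.H70R2.TG.Block

/-!
# One block: selection
-/

open Finset Module

namespace H70.TG

variable {V W : Type}

theorem sum_split {V0 Z A : Type} {u : ℕ} [Fintype V] [AddCommGroup V] [Module (ZMod 2) V]
    [Fintype V0] [AddCommGroup V0] [Module (ZMod 2) V0] [DecidableEq Z] [AddCommMonoid A]
    (α : V →ₗ[ZMod 2] (Fin u → ZMod 2)) (pr : V →ₗ[ZMod 2] V0) (ι : V0 →ₗ[ZMod 2] V)
    (σ : (Fin u → ZMod 2) →ₗ[ZMod 2] V) (hσ : ∀ y, α (σ y) = y) (hι : ∀ x, α (ι x) = 0)
    (hprσ : ∀ y, pr (σ y) = 0) (hprι : ∀ x, pr (ι x) = x) (hdec : ∀ x, x = ι (pr x) + σ (α x))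
    (γ : V0 → Z) (g : V → A) (y : Fin u → ZMod 2) (z : Z) :
    ∑ x with (α x = y ∧ γ (pr x) = z), g x = ∑ x0 with γ x0 = z, g (ι x0 + σ y) := by
  classical
  refine Finset.sum_nbij' (i := fun x => pr x) (j := fun x0 => ι x0 + σ y) ?_ ?_ ?_ ?_ ?_
  · intro x hx
    simp only [Finset.mem_filter, Finset.mem_univ, true_and] at hx ⊢
    exact hx.2
  · intro x hx
    simp only [Finset.mem_filter, Finset.mem_univ, true_and] at hx ⊢
    rw [map_add, map_add, hσ, hι, hprσ, hprι, zero_add, add_zero]
    exact ⟨rfl, hx⟩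
  · intro x hx
    simp only [Finset.mem_filter, Finset.mem_univ, true_and] at hx
    rw [← hx.1]
    exact (hdec x).symm
  · intro x hx
    simp only [map_add, hprσ, hprι, add_zero]
  · intro x hx
    simp only [Finset.mem_filter, Finset.mem_univ, true_and] at hx
    rw [← hx.1, ← hdec x]

theorem exists_block [Fintype V] [AddCommGroup V] [Module (ZMod 2) V] [AddCommGroup W]
    [Module (ZMod 2) W] [Module.Finite (ZMod 2) W] [Nontrivial W] {κ : Type} [Fintype κ]
    (p : κ → V → ZMod 2) {u : ℕ} (α : V →ₗ[ZMod 2] (Fin u → ZMod 2))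
    (hα : Function.Surjective α) (hk : ∀ k, ∀ y ≠ 0, ∑ x with α x = y, p k x = 0)
    {C : Submodule (ZMod 2) (V → W)} (hTI : TI C) (hG : Good u C) :
    ∃ (s : W →ₗ[ZMod 2] ZMod 2) (V0 : Type) (_ : Fintype V0) (_ : AddCommGroup V0)
      (_ : Module (ZMod 2) V0) (pr : V →ₗ[ZMod 2] V0)
      (p' : (κ ⊕ Fin (finrank (ZMod 2) W)) × (Fin u → ZMod 2) → V0 → ZMod 2),
      s ≠ 0 ∧ Function.Surjective pr ∧ finrank (ZMod 2) V0 + u = finrank (ZMod 2) V ∧
      ∀ (Z : Type) [Fintype Z] [DecidableEq Z] [AddCommGroup Z] [Module (ZMod 2) Z]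
        (γ : V0 →ₗ[ZMod 2] Z), Function.Surjective γ →
        (∀ i, ∀ z ≠ 0, ∑ x with γ x = z, p' i x = 0) →
        Function.Surjective (fun x => (α x, γ (pr x))) ∧
        (∀ k, ∀ y : (Fin u → ZMod 2) × Z, y ≠ 0 → ∑ x with (α x, γ (pr x)) = y, p k x = 0) ∧
        finrank (ZMod 2) (pull (fun x => (α x, γ (pr x))) C) ≤
          (2 ^ u - 1) * finrank (ZMod 2) (pull (fun x => γ (pr x)) C) +
            finrank (ZMod 2) (sub s (pull (fun x => γ (pr x)) C)) := by
  classical
  obtain ⟨Λ, s, hs0, hΛC, hΛα⟩ := exists_func hTI hG α hα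
  obtain ⟨σ, hσ'⟩ := α.exists_rightInverse_of_surjective (LinearMap.range_eq_top.2 hα)
  have hσ : ∀ y, α (σ y) = y := fun y => LinearMap.congr_fun hσ' y
  let pr : V →ₗ[ZMod 2] LinearMap.ker α :=
    LinearMap.codRestrict _ (LinearMap.id - σ ∘ₗ α) (by
      intro x
      rw [LinearMap.mem_ker]
      simp [hσ])
  let ι : LinearMap.ker α →ₗ[ZMod 2] V := (LinearMap.ker α).subtype
  have hprv : ∀ x, ι (pr x) = x - σ (α x) := fun x => rfl
  have hι : ∀ x, α (ι x) = 0 := fun x => x.2
  have hprσ : ∀ y, pr (σ y) = 0 := by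
    intro y
    apply Subtype.ext
    change ι (pr (σ y)) = 0
    rw [hprv, hσ, sub_self]
  have hprι : ∀ x, pr (ι x) = x := by
    intro x
    apply Subtype.ext
    change ι (pr (ι x)) = ι x
    rw [hprv, hι, map_zero, sub_zero]
  have hdec : ∀ x, x = ι (pr x) + σ (α x) := by
    intro x
    rw [hprv, sub_add_cancel]
  let b := Module.finBasis (ZMod 2) W
  let P : κ ⊕ Fin (finrank (ZMod 2) W) → V → ZMod 2 :=
    Sum.elim p (fun j x => Λ (Pi.single x (b j)))
  refine ⟨s, LinearMap.ker α, inferInstance, inferInstance, inferInstance, pr,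
    fun i x0 => P i.1 (ι x0 + σ i.2), hs0, ?_, ?_, ?_⟩
  · intro x0
    exact ⟨ι x0, hprι x0⟩
  · have h2 := LinearMap.finrank_range_add_finrank_ker α
    rw [LinearMap.range_eq_top.2 hα, finrank_top] at h2
    simp at h2
    omega
  · intro Z _ _ _ _ γ hγ hkill
    have hBsurj : Function.Surjective (fun x => (α x, γ (pr x))) := by
      rintro ⟨y, z⟩
      obtain ⟨x0, rfl⟩ := hγ z
      refine ⟨ι x0 + σ y, ?_⟩
      simp only [map_add, hι, hσ, hprι, hprσ, zero_add, add_zero]
    -- kill in the joint quotient
    have hkz : ∀ i, ∀ y : Fin u → ZMod 2, ∀ z : Z, z ≠ 0 →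
        ∑ x with (α x = y ∧ γ (pr x) = z), P i x = 0 := by
      intro i y z hz
      rw [sum_split α pr ι σ hσ hι hprσ hprι hdec (fun x => γ x) (P i) y z]
      exact hkill (i, y) z hz
    have hfib : ∀ {A : Type} [AddCommMonoid A] (g : V → A) (y : Fin u → ZMod 2),
        ∑ x with α x = y, g x = ∑ z, ∑ x with (α x = y ∧ γ (pr x) = z), g x := by
      intro A _ g y
      rw [← Finset.sum_fiberwise (s := univ.filter fun x => α x = y) (g := fun x => γ (pr x))]
      apply Finset.sum_congr rfl
      intro z _
      rw [Finset.filter_filter]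
    refine ⟨hBsurj, ?_, ?_⟩
    · rintro k ⟨y, z⟩ hyz
      have hset : (univ.filter fun x => (α x, γ (pr x)) = (y, z)) =
          univ.filter fun x => (α x = y ∧ γ (pr x) = z) := by
        ext x; simp
      rw [hset]
      by_cases hz : z = 0
      · subst hz
        have hy : y ≠ 0 := by
          rintro rfl
          exact hyz rfl
        have h1 := hfib (p k) y
        have h2 : ∑ z, ∑ x with (α x = y ∧ γ (pr x) = z), p k x =
            ∑ x with (α x = y ∧ γ (pr x) = 0), p k x :=
          Fintype.sum_eq_single 0 (fun z hz => hkz (Sum.inl k) y z hz)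
        rw [hk k y hy, h2] at h1
        exact h1.symm
      · exact hkz (Sum.inl k) y z hz
    · -- the vector valued push forward of Λ
      let Q : (Fin u → ZMod 2) → Z → (W →ₗ[ZMod 2] ZMod 2) := fun y z =>
        ∑ x with (α x = y ∧ γ (pr x) = z), Λ ∘ₗ LinearMap.single (ZMod 2) (fun _ => W) x
      have hQ : ∀ y z w, Q y z w = ∑ x with (α x = y ∧ γ (pr x) = z), Λ (Pi.single x w) := by
        intro y z w
        simp only [Q, LinearMap.sum_apply, LinearMap.comp_apply, LinearMap.single_apply]
      have hQ0 : ∀ y z, z ≠ 0 → Q y z = 0 := by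
        intro y z hz
        apply b.ext
        intro j
        rw [hQ]
        exact hkz (Sum.inr j) y z hz
      have hQs : ∀ y, Q y 0 = s := by
        intro y
        apply LinearMap.ext
        intro w
        have h1 := hfib (fun x => Λ (Pi.single x w)) y
        rw [Fintype.sum_eq_single (0 : Z) (fun z hz => by rw [← hQ, hQ0 y z hz]; rfl), ← hQ] at h1
        rw [← h1, ← map_sum]
        have h2 : (∑ x with α x = y, (Pi.single x w : V → W)) =
            fun x => (Pi.single y w : (Fin u → ZMod 2) → W) (α x) := by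
          funext x'
          rw [Finset.sum_apply]
          by_cases hx : α x' = y
          · rw [Finset.sum_eq_single x']
            · subst hx; simp
            · intro x _ hne
              rw [Pi.single_eq_of_ne (Ne.symm hne)]
            · intro hnot
              exfalso
              apply hnot
              simp [hx]
          · rw [Pi.single_eq_of_ne hx]
            apply Finset.sum_eq_zero
            intro x hx'
            rw [Finset.mem_filter] at hx'
            rw [Pi.single_eq_of_ne]
            rintro rfl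
            exact hx hx'.2
        rw [h2, hΛα, Finset.sum_eq_single y]
        · simp
        · intro y' _ hne
          rw [Pi.single_eq_of_ne hne, map_zero]
        · intro h; exact (h (Finset.mem_univ _)).elim
      have hsum0 : ∀ h ∈ pull (fun x => (α x, γ (pr x))) C, ∑ y, s (h (y, 0)) = 0 := by
        intro h hh
        rw [mem_pull] at hh
        have h1 := hΛC _ hh
        have h2 : (fun x => h (α x, γ (pr x))) =
            ∑ x, (Pi.single x (h (α x, γ (pr x))) : V → W) :=
          (Finset.univ_sum_single _).symm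
        rw [h2, map_sum] at h1
        rw [← h1, ← Finset.sum_fiberwise (s := univ) (g := fun x => α x)]
        apply Finset.sum_congr rfl
        intro y _
        rw [hfib]
        rw [Fintype.sum_eq_single (0 : Z)]
        · rw [← hQs y, hQ]
          apply Finset.sum_congr rfl
          intro x hx
          rw [Finset.mem_filter] at hx
          rw [hx.2.1, hx.2.2]
        · intro z hz
          have h3 : ∀ x ∈ univ.filter (fun x => α x = y ∧ γ (pr x) = z),
              Λ (Pi.single x (h (α x, γ (pr x)))) = Λ (Pi.single x (h (y, z))) := by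
            intro x hx
            rw [Finset.mem_filter] at hx
            rw [hx.2.1, hx.2.2]
          rw [Finset.sum_congr rfl h3, ← hQ, hQ0 y z hz]
          rfl
      apply step_dim s
      · intro v h hh
        rw [mem_pull] at hh ⊢
        have := hTI (σ v) _ hh
        simpa [hσ, hprσ] using this
      · intro h hh z
        obtain ⟨x1, hx1⟩ := hBsurj ((0 : Fin u → ZMod 2), z)
        simp only [Prod.mk.injEq] at hx1
        have h1 := hsum0 (fun x => h (x.1, x.2 + z)) (by
          rw [mem_pull] at hh ⊢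
          have := hTI x1 _ hh
          simpa [hx1.1, hx1.2] using this)
        rw [map_sum]
        simpa using h1
      · intro h2 hh2
        rw [mem_pull] at hh2 ⊢
        exact hh2

end H70.TG
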