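import Mathlib
import Pool.Agent.H70R2.TG.Block2

/-!
# Selection of the blocks, dimension bounds
-/

open Finset Module

namespace H70.TG

/-- passing to the words that are constant on the fibres of `ψ` does not decrease the rate. -/
theorem quot_dim {G X Z W : Type} [Group G] [Fintype G] (hG : IsPGroup 2 G) [AddCommGroup W]
    [Module (ZMod 2) W] [Fintype X] [Module.Finite (ZMod 2) W]
    (act : G → X → X) (ha1 : ∀ x, act 1 x = x) (ham : ∀ g h x, act (g * h) x = act g (act h x))
    (ψ : X → Z) (hψ : Function.Surjective ψ) (horb : ∀ x x', ψ x = ψ x' → ∃ g, act g x = x')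
    (C : Submodule (ZMod 2) (X → W)) (hinv : ∀ g, ∀ f ∈ C, (fun x => f (act g x)) ∈ C) :
    finrank (ZMod 2) C ≤ Fintype.card G * finrank (ZMod 2) (pull ψ C) := by
  classical
  have : Finite Z := Finite.of_surjective ψ hψ
  have := Fintype.ofFinite Z
  let ρ : Representation (ZMod 2) G C :=
    { toFun := fun g => LinearMap.codRestrict C
        ((LinearMap.funLeft (ZMod 2) W (fun x => act g⁻¹ x)) ∘ₗ C.subtype)
        (fun f => hinv g⁻¹ f f.2)
      map_one' := by
        apply LinearMap.ext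
        intro f
        apply Subtype.ext
        funext x
        change (f : X → W) (act 1⁻¹ x) = (f : X → W) x
        rw [inv_one, ha1]
      map_mul' := by
        intro g h
        apply LinearMap.ext
        intro f
        apply Subtype.ext
        funext x
        change (f : X → W) (act (g * h)⁻¹ x) = (f : X → W) (act h⁻¹ (act g⁻¹ x))
        rw [mul_inv_rev, ham] }
  have hρ : ∀ g (f : C) x, (ρ g f : X → W) x = (f : X → W) (act g⁻¹ x) := fun _ _ _ => rfl
  refine ((finrank_bounds hG ρ).1).trans (Nat.mul_le_mul_left _ ?_)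
  have hconst : ∀ f ∈ ρ.invariants, ∀ x x', ψ x = ψ x' → (f : X → W) x = (f : X → W) x' := by
    intro f hf x x' hxx
    rw [Representation.mem_invariants] at hf
    obtain ⟨g, rfl⟩ := horb x x' hxx
    have h1 := congrArg (fun k : C => (k : X → W) x) (hf g⁻¹)
    simp only [hρ, inv_inv] at h1
    exact h1.symm
  let sec : Z → X := fun z => (hψ z).choose
  have hsec : ∀ z, ψ (sec z) = z := fun z => (hψ z).choose_spec
  let Ψ : ρ.invariants →ₗ[ZMod 2] pull ψ C :=
    LinearMap.codRestrict (pull ψ C)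
      (LinearMap.funLeft (ZMod 2) W sec ∘ₗ C.subtype ∘ₗ (ρ.invariants).subtype) (by
        intro f
        rw [mem_pull]
        have : (fun x => (LinearMap.funLeft (ZMod 2) W sec ∘ₗ C.subtype ∘ₗ
            (ρ.invariants).subtype) f (ψ x)) = ((f : C) : X → W) := by
          funext x
          exact hconst f f.2 _ _ (hsec _)
        rw [this]
        exact (f : C).2)
  apply LinearMap.finrank_le_finrank_of_injective (f := Ψ)
  intro f f' hff
  apply Subtype.ext
  apply Subtype.ext
  funext x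
  have h1 := congrArg (fun k : pull ψ C => (k : Z → W) (ψ x)) hff
  change ((f : C) : X → W) (sec (ψ x)) = ((f' : C) : X → W) (sec (ψ x)) at h1
  rw [hconst f f.2 _ _ (hsec _), hconst f' f'.2 _ _ (hsec _)] at h1
  exact h1

/-- the case of vector spaces. -/
theorem quot_dim_space {V Z W : Type} [Fintype V] [AddCommGroup V] [Module (ZMod 2) V]
    [Fintype Z] [AddCommGroup Z] [Module (ZMod 2) Z] [AddCommGroup W]
    [Module (ZMod 2) W] [Module.Finite (ZMod 2) W] {C : Submodule (ZMod 2) (V → W)} (hTI : TI C)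
    (B : V →ₗ[ZMod 2] Z) (hB : Function.Surjective B) :
    finrank (ZMod 2) C * Fintype.card Z ≤ Fintype.card V * finrank (ZMod 2) (pull B C) := by
  classical
  have := Fintype.ofFinite (LinearMap.ker B)
  have hK : Fintype.card V = Fintype.card (LinearMap.ker B) * Fintype.card Z := by
    have h2 := LinearMap.finrank_range_add_finrank_ker B
    rw [LinearMap.range_eq_top.2 hB, finrank_top] at h2
    rw [Module.card_eq_pow_finrank (K := ZMod 2) (V := V),
      Module.card_eq_pow_finrank (K := ZMod 2) (V := Z),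
      Module.card_eq_pow_finrank (K := ZMod 2) (V := LinearMap.ker B), ← h2, pow_add, mul_comm]
  have hG : IsPGroup 2 (Multiplicative (LinearMap.ker B)) := by
    apply IsPGroup.of_card (n := finrank (ZMod 2) (LinearMap.ker B))
    rw [Nat.card_congr Multiplicative.toAdd,
      Module.natCard_eq_pow_finrank (K := ZMod 2) (V := LinearMap.ker B)]
    simp
  have h1 := quot_dim (G := Multiplicative (LinearMap.ker B)) hG
    (fun g x => x + ((Multiplicative.toAdd g : LinearMap.ker B) : V)) (by intro x; simp) (by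
      intro g h x
      simp only [toAdd_mul, Submodule.coe_add]
      abel) B hB (by
      intro x x' hxx
      refine ⟨Multiplicative.ofAdd ⟨x' - x, ?_⟩, ?_⟩
      · rw [LinearMap.mem_ker, map_sub, hxx, sub_self]
      · simp) C (fun g f hf => hTI _ f hf)
  rw [Fintype.card_congr (Multiplicative.toAdd : Multiplicative (LinearMap.ker B) ≃ _)] at h1
  calc finrank (ZMod 2) C * Fintype.card Z
      ≤ (Fintype.card (LinearMap.ker B) * finrank (ZMod 2) (pull B C)) * Fintype.card Z :=
        Nat.mul_le_mul_right _ h1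
    _ = _ := by rw [hK]; ring

theorem sub_bound {Z W : Type} [Fintype Z] [AddCommGroup Z] [Module (ZMod 2) Z] [AddCommGroup W]
    [Module (ZMod 2) W] [Module.Finite (ZMod 2) W] {u z ℓ : ℕ} {ε' : ℝ}
    (hyp : ∀ (Z W' : Type) [Fintype Z] [AddCommGroup Z] [Module (ZMod 2) Z] [AddCommGroup W']
      [Module (ZMod 2) W'] [Module.Finite (ZMod 2) W'] (D : Submodule (ZMod 2) (Z → W')),
      z ≤ finrank (ZMod 2) Z → finrank (ZMod 2) W' < ℓ → TI D → Good u D →
      (finrank (ZMod 2) D : ℝ) ≤ ε' * Fintype.card Z)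
    (hZ : z ≤ finrank (ZMod 2) Z) (hW : finrank (ZMod 2) W = ℓ)
    (s : W →ₗ[ZMod 2] ZMod 2) (hs : s ≠ 0) {D : Submodule (ZMod 2) (Z → W)} (hTI : TI D)
    (hG : Good u D) : (finrank (ZMod 2) (sub s D) : ℝ) ≤ ε' * Fintype.card Z := by
  classical
  have hker : finrank (ZMod 2) (LinearMap.ker s) < ℓ := by
    have h1 := LinearMap.finrank_range_add_finrank_ker s
    have h2 : 0 < finrank (ZMod 2) (LinearMap.range s) := by
      rw [Module.finrank_pos_iff, Submodule.nontrivial_iff_ne_bot]
      intro h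
      exact hs (LinearMap.range_eq_bot.1 h)
    omega
  let D' : Submodule (ZMod 2) (Z → LinearMap.ker s) :=
    D.comap (LinearMap.compLeft (LinearMap.ker s).subtype Z)
  have hD' : ∀ h, h ∈ D' ↔ (fun z => ((h z : LinearMap.ker s) : W)) ∈ D := fun _ => Iff.rfl
  have h1 := hyp Z (LinearMap.ker s) D' hZ hker (by
    intro v f hf
    rw [hD'] at hf ⊢
    exact hTI v _ hf) (by
    intro β hβ f hf hsupp
    rw [hD'] at hf
    have := hG β hβ _ hf (fun x hx => by rw [hsupp x hx]; rfl)
    funext x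
    apply Subtype.ext
    exact congrFun this x)
  refine le_trans ?_ h1
  have h2 : finrank (ZMod 2) (sub s D) ≤ finrank (ZMod 2) D' := by
    let Ψ : sub s D →ₗ[ZMod 2] D' :=
      { toFun := fun h => ⟨fun z => ⟨(h : Z → W) z,
          LinearMap.mem_ker.2 ((mem_sub.1 h.2).2 z)⟩, (mem_sub.1 h.2).1⟩
        map_add' := by
          intro h h'
          rfl
        map_smul' := by
          intro c h
          rfl }
    apply LinearMap.finrank_le_finrank_of_injective (f := Ψ)
    intro h h' hh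
    apply Subtype.ext
    funext x
    have h3 := congrArg (fun k : D' => (((k : Z → LinearMap.ker s) x : LinearMap.ker s) : W)) hh
    exact h3
  exact_mod_cast h2

theorem select {u z ℓ : ℕ} (hu : 1 ≤ u) (hℓ : 1 ≤ ℓ) {ε' : ℝ}
    (hyp : ∀ (Z W' : Type) [Fintype Z] [AddCommGroup Z] [Module (ZMod 2) Z] [AddCommGroup W']
      [Module (ZMod 2) W'] [Module.Finite (ZMod 2) W'] (D : Submodule (ZMod 2) (Z → W')),
      z ≤ finrank (ZMod 2) Z → finrank (ZMod 2) W' < ℓ → TI D → Good u D →
      (finrank (ZMod 2) D : ℝ) ≤ ε' * Fintype.card Z) (hε' : 0 ≤ ε') (r : ℕ) :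
    ∀ (V W κ : Type) [Fintype V] [AddCommGroup V] [Module (ZMod 2) V] [AddCommGroup W]
      [Module (ZMod 2) W] [Module.Finite (ZMod 2) W] [Fintype κ]
      (C : Submodule (ZMod 2) (V → W)) (p : κ → V → ZMod 2),
      finrank (ZMod 2) W = ℓ → TI C → Good u C →
      z + u * r + 2 ^ z * (2 ^ (u * r) * Fintype.card κ + ℓ * 2 ^ (u * r + 1)) ≤
        finrank (ZMod 2) V →
      ∃ (Z : Type) (_ : Fintype Z) (_ : DecidableEq Z) (_ : AddCommGroup Z)
        (_ : Module (ZMod 2) Z) (B : V →ₗ[ZMod 2] Z), Function.Surjective B ∧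
        finrank (ZMod 2) Z = z + u * r ∧ (∀ k, ∀ y ≠ 0, ∑ x with B x = y, p k x = 0) ∧
        (finrank (ZMod 2) (pull B C) : ℝ) ≤
          (ℓ * (1 - (1 / 2) ^ u) ^ r + ε') * Fintype.card Z := by
  classical
  induction r with
  | zero =>
    intro V W κ _ _ _ _ _ _ _ C p hW hTI hG hdim
    obtain ⟨α, hα, hk⟩ := kill p z (by
      simp only [Nat.mul_zero, pow_zero, one_mul, add_zero, zero_add, pow_one] at hdim
      nlinarith [Nat.zero_le (2 ^ z * (ℓ * 2))])
    refine ⟨Fin z → ZMod 2, inferInstance, inferInstance, inferInstance, inferInstance, α, hα,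
      by simp, hk, ?_⟩
    have h1 : finrank (ZMod 2) (pull α C) ≤ Fintype.card (Fin z → ZMod 2) * ℓ := by
      refine (Submodule.finrank_le _).trans ?_
      rw [Module.finrank_pi_fintype, hW]
      simp
    have h2 : (finrank (ZMod 2) (pull α C) : ℝ) ≤ Fintype.card (Fin z → ZMod 2) * ℓ := by
      exact_mod_cast h1
    rw [pow_zero, mul_one]
    have h3 : (0 : ℝ) ≤ Fintype.card (Fin z → ZMod 2) := by positivity
    nlinarith
  | succ r ih =>
    intro V W κ _ _ _ _ _ _ _ C p hW hTI hG hdim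
    have : Nontrivial W := by
      rw [← Module.finrank_pos_iff (R := ZMod 2)]
      omega
    have hpow : 2 ^ (u * (r + 1)) = 2 ^ (u * r) * 2 ^ u := by
      rw [Nat.mul_succ, pow_add]
    have hpu : 2 ≤ 2 ^ u := by
      calc 2 = 2 ^ 1 := rfl
        _ ≤ 2 ^ u := Nat.pow_le_pow_right (by norm_num) hu
    have hz1 : 1 ≤ 2 ^ z := Nat.one_le_two_pow
    have hr1 : 1 ≤ 2 ^ (u * r) := Nat.one_le_two_pow
    obtain ⟨α, hα, hk⟩ := kill p u (by
      refine le_trans ?_ hdim
      have e1 : Fintype.card κ * 2 ^ u ≤ 2 ^ z * (2 ^ (u * (r + 1)) * Fintype.card κ) := by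
        rw [hpow]
        calc Fintype.card κ * 2 ^ u = 1 * (1 * 2 ^ u * Fintype.card κ) := by ring
          _ ≤ 2 ^ z * (2 ^ (u * r) * 2 ^ u * Fintype.card κ) := by gcongr
      have e2 : u ≤ u * (r + 1) := Nat.le_mul_of_pos_right _ (Nat.succ_pos r)
      nlinarith [Nat.zero_le (2 ^ z * (ℓ * 2 ^ (u * (r + 1) + 1)))])
    obtain ⟨s, V0, _, _, _, pr, p', hs0, hpr, hdimV0, hblock⟩ :=
      exists_block p α hα hk hTI hG
    obtain ⟨Z, _, _, _, _, γ, hγ, hdZ, hkill, hbound⟩ := ih V0 W
      ((κ ⊕ Fin (finrank (ZMod 2) W)) × (Fin u → ZMod 2)) (pull pr C) p' hW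
      (pull_TI hTI pr hpr) (pull_Good hG pr hpr) (by
        have hc : Fintype.card ((κ ⊕ Fin (finrank (ZMod 2) W)) × (Fin u → ZMod 2)) =
            (Fintype.card κ + ℓ) * 2 ^ u := by
          simp [hW]
        rw [hc]
        have e3 : 2 ^ z * (2 ^ (u * r) * ((Fintype.card κ + ℓ) * 2 ^ u) + ℓ * 2 ^ (u * r + 1)) ≤
            2 ^ z * (2 ^ (u * (r + 1)) * Fintype.card κ + ℓ * 2 ^ (u * (r + 1) + 1)) := by
          rw [pow_succ 2 (u * (r + 1)), pow_succ 2 (u * r), hpow]
          apply Nat.mul_le_mul_left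
          have : 2 ^ (u * r) * 2 ≤ 2 ^ (u * r) * 2 ^ u := Nat.mul_le_mul_left _ hpu
          nlinarith [Nat.mul_le_mul_left ℓ this]
        rw [Nat.mul_succ] at hdim
        rw [Nat.mul_succ] at e3
        omega)
    obtain ⟨hBs, hBk, hBd⟩ := hblock Z γ hγ hkill
    refine ⟨(Fin u → ZMod 2) × Z, inferInstance, inferInstance, inferInstance, inferInstance,
      α.prod (γ ∘ₗ pr), hBs, ?_, hBk, ?_⟩
    · rw [Module.finrank_prod, hdZ, Nat.mul_succ]
      simp
      ring
    · have hsubb := sub_bound hyp (D := pull γ (pull pr C)) (by omega) hW s hs0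
        (pull_TI (pull_TI hTI pr hpr) γ hγ) (pull_Good (pull_Good hG pr hpr) γ hγ)
      have hBd' : finrank (ZMod 2) (pull (α.prod (γ ∘ₗ pr)) C) ≤
          (2 ^ u - 1) * finrank (ZMod 2) (pull γ (pull pr C)) +
            finrank (ZMod 2) (sub s (pull γ (pull pr C))) := hBd
      have hcast : (finrank (ZMod 2) (pull (α.prod (γ ∘ₗ pr)) C) : ℝ) ≤
          (2 ^ u - 1) * finrank (ZMod 2) (pull γ (pull pr C)) +
            finrank (ZMod 2) (sub s (pull γ (pull pr C))) := by
        have h1 : ((2 ^ u - 1 : ℕ) : ℝ) = 2 ^ u - 1 := by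
          rw [Nat.cast_sub (by omega)]
          norm_num
        rw [← h1]
        exact_mod_cast hBd'
      have hcard : (Fintype.card ((Fin u → ZMod 2) × Z) : ℝ) = 2 ^ u * Fintype.card Z := by
        rw [Fintype.card_prod]
        simp
      rw [hcard]
      have hA : (2 : ℝ) ^ u * (1 - (1 / 2) ^ u) = 2 ^ u - 1 := by
        rw [mul_sub, ← mul_pow]
        norm_num
      have h2u : (1 : ℝ) ≤ 2 ^ u := one_le_pow₀ (by norm_num)
      calc (finrank (ZMod 2) (pull (α.prod (γ ∘ₗ pr)) C) : ℝ)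
          ≤ (2 ^ u - 1) * ((ℓ * (1 - (1 / 2) ^ u) ^ r + ε') * Fintype.card Z) +
            ε' * Fintype.card Z := by
            refine hcast.trans (add_le_add (mul_le_mul_of_nonneg_left hbound (by linarith)) hsubb)
        _ = (ℓ * (1 - (1 / 2) ^ u) ^ (r + 1) + ε') * (2 ^ u * Fintype.card Z) := by
            rw [← hA]
            have hA' : (2 : ℝ) ^ u * (1 - (1 / 2) ^ u) = 2 ^ u - 1 := hA
            rw [pow_succ (1 - (1 / 2 : ℝ) ^ u) r]
            have : (2 : ℝ) ^ u * (1 - (1 / 2) ^ u) * ε' + ε' = 2 ^ u * ε' := by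
              rw [hA]; ring
            linear_combination (Fintype.card Z : ℝ) * this

end H70.TG
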