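import Mathlib
import Pool.Agent.H70R2.TG.Select

/-!
# Codes invariant under 2-groups with many generators
-/

open Finset Module

namespace H70.TG

/-- qualitative theorem for translation invariant codes with values in a fixed space. -/
theorem spaces {u : ℕ} (hu : 1 ≤ u) (ℓ : ℕ) : ∀ ε : ℝ, 0 < ε → ∃ M : ℕ,
    ∀ (V W : Type) [Fintype V] [AddCommGroup V] [Module (ZMod 2) V] [AddCommGroup W]
      [Module (ZMod 2) W] [Module.Finite (ZMod 2) W] (D : Submodule (ZMod 2) (V → W)),
      M ≤ finrank (ZMod 2) V → finrank (ZMod 2) W < ℓ → TI D → Good u D →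
      (finrank (ZMod 2) D : ℝ) ≤ ε * Fintype.card V := by
  induction ℓ with
  | zero =>
    intro ε _
    exact ⟨0, fun V W _ _ _ _ _ _ D _ h => (Nat.not_lt_zero _ h).elim⟩
  | succ ℓ ih =>
    intro ε hε
    obtain ⟨z, hz⟩ := ih (ε / 2) (by positivity)
    have ha0 : (0 : ℝ) ≤ 1 - (1 / 2) ^ u := by
      have : ((1 : ℝ) / 2) ^ u ≤ 1 := pow_le_one₀ (by norm_num) (by norm_num)
      linarith
    have ha1 : (1 : ℝ) - (1 / 2) ^ u < 1 := by
      have : (0 : ℝ) < (1 / 2) ^ u := by positivity
      linarith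
    obtain ⟨r, hr⟩ := exists_pow_lt_of_lt_one (show (0 : ℝ) < ε / 2 / (ℓ + 1) by positivity) ha1
    refine ⟨max z (z + u * r + 2 ^ z * (2 ^ (u * r) * 0 + ℓ * 2 ^ (u * r + 1))), ?_⟩
    intro V W _ _ _ _ _ _ D hM hW hTI hG
    have hcardpos : (0 : ℝ) < Fintype.card V := by
      have : 0 < Fintype.card V := Fintype.card_pos
      exact_mod_cast this
    rcases Nat.lt_succ_iff_lt_or_eq.1 hW with h | h
    · refine (hz V W D ((le_max_left _ _).trans hM) h hTI hG).trans ?_
      nlinarith
    · rcases Nat.eq_zero_or_pos ℓ with h0 | h0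
      · have hW0 : finrank (ZMod 2) W = 0 := by omega
        have : finrank (ZMod 2) D ≤ 0 := by
          refine (Submodule.finrank_le _).trans ?_
          rw [Module.finrank_pi_fintype, hW0]
          simp
        have h1 : finrank (ZMod 2) D = 0 := by omega
        rw [h1]
        push_cast
        positivity
      · obtain ⟨Z, _, _, _, _, B, hB, hdZ, _, hbound⟩ :=
          select hu h0 (z := z) (ε' := ε / 2) (fun Z W' _ _ _ _ _ _ D => hz Z W' D)
            (by positivity) r V W Empty D (fun e => e.elim) h hTI hG (by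
              rw [Fintype.card_eq_zero]
              exact (le_max_right _ _).trans hM)
        have h1 := quot_dim_space hTI B hB
        have hZpos : (0 : ℝ) < Fintype.card Z := by
          have : 0 < Fintype.card Z := Fintype.card_pos
          exact_mod_cast this
        have h2 : (finrank (ZMod 2) D : ℝ) * Fintype.card Z ≤
            Fintype.card V * finrank (ZMod 2) (pull B D) := by exact_mod_cast h1
        have h3 : (ℓ : ℝ) * (1 - (1 / 2) ^ u) ^ r ≤ ε / 2 := by
          have hp : (0 : ℝ) ≤ (1 - (1 / 2) ^ u) ^ r := pow_nonneg ha0 _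
          have h4 : (1 - (1 / 2 : ℝ) ^ u) ^ r * (ℓ + 1) ≤ ε / 2 := by
            have := mul_le_mul_of_nonneg_right hr.le (show (0 : ℝ) ≤ (ℓ : ℝ) + 1 by positivity)
            rwa [div_mul_cancel₀ _ (by positivity)] at this
          nlinarith
        have h5 : (finrank (ZMod 2) (pull B D) : ℝ) ≤ ε * Fintype.card Z := by
          refine hbound.trans ?_
          apply mul_le_mul_of_nonneg_right _ hZpos.le
          linarith
        have h6 : (finrank (ZMod 2) D : ℝ) * Fintype.card Z ≤
            (ε * Fintype.card V) * Fintype.card Z := by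
          refine h2.trans ?_
          calc (Fintype.card V : ℝ) * finrank (ZMod 2) (pull B D)
              ≤ Fintype.card V * (ε * Fintype.card Z) :=
                mul_le_mul_of_nonneg_left h5 hcardpos.le
            _ = _ := by ring
        exact le_of_mul_le_mul_right h6 hZpos

/-- information sets. -/
theorem info_set {Z : Type} [Fintype Z] [DecidableEq Z] (n : ℕ) :
    ∀ D : Submodule (ZMod 2) (Z → ZMod 2), finrank (ZMod 2) D = n →
      ∃ I : Finset Z, I.card ≤ n ∧ ∀ h ∈ D, (∀ z ∈ I, h z = 0) → h = 0 := by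
  induction n with
  | zero =>
    intro D hD
    refine ⟨∅, by simp, ?_⟩
    intro h hh _
    have : D = ⊥ := Submodule.finrank_eq_zero.1 hD
    rw [this] at hh
    exact (Submodule.mem_bot _).1 hh
  | succ n ih =>
    intro D hD
    have hne : D ≠ ⊥ := by
      rintro rfl
      simp at hD
    obtain ⟨h0, hh0, hne0⟩ := Submodule.exists_mem_ne_zero_of_ne_bot hne
    obtain ⟨z0, hz0⟩ : ∃ z, h0 z ≠ 0 := by
      by_contra hall
      push Not at hall
      exact hne0 (funext hall)
    let e : D →ₗ[ZMod 2] ZMod 2 := (LinearMap.proj z0) ∘ₗ D.subtype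
    have he : finrank (ZMod 2) (LinearMap.ker e) = n := by
      have h1 := LinearMap.finrank_range_add_finrank_ker e
      have h2 : LinearMap.range e = ⊤ := by
        rw [LinearMap.range_eq_top]
        intro t
        rcases (show t = 0 ∨ t = 1 by revert t; decide) with rfl | rfl
        · exact ⟨0, map_zero _⟩
        · exact ⟨⟨h0, hh0⟩, ((show h0 z0 = 0 ∨ h0 z0 = 1 by
            generalize h0 z0 = t; revert t; decide).resolve_left hz0)⟩
      rw [h2, finrank_top, hD] at h1
      simp at h1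
      omega
    have he' : finrank (ZMod 2) ((LinearMap.ker e).map D.subtype) = n := by
      rw [← he]
      exact Submodule.finrank_map_subtype_eq _ _
    obtain ⟨I, hI, hI'⟩ := ih _ he'
    refine ⟨insert z0 I, (Finset.card_insert_le _ _).trans (Nat.succ_le_succ hI), ?_⟩
    intro h hh hz
    apply hI'
    · rw [Submodule.mem_map]
      refine ⟨⟨h, hh⟩, ?_, rfl⟩
      rw [LinearMap.mem_ker]
      exact hz z0 (Finset.mem_insert_self _ _)
    · intro z hz'
      exact hz z (Finset.mem_insert_of_mem hz')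

/-- passing to the words that are constant on the orbits, for an arbitrary action. -/
theorem quot_dim' {G X Z : Type} [Group G] (hG : IsPGroup 2 G) [MulAction G X] [Fintype X]
    [Fintype Z] [DecidableEq Z]
    (ψ : X → Z) (hinv : ∀ (g : G) x, ψ (g • x) = ψ x)
    (horb : ∀ x x', ψ x = ψ x' → ∃ g : G, g • x = x') (s : ℕ)
    (hfib : ∀ z, (univ.filter fun x => ψ x = z).card ≤ s)
    (C : Submodule (ZMod 2) (X → ZMod 2)) (hC : ∀ g : G, ∀ f ∈ C, (fun x => f (g • x)) ∈ C) :
    finrank (ZMod 2) C ≤ s * finrank (ZMod 2) (pull ψ C) := by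
  classical
  obtain ⟨I, hI, hI'⟩ := info_set _ (pull ψ C) rfl
  let ρ : Representation (ZMod 2) G (X → ZMod 2) :=
    { toFun := fun g => LinearMap.funLeft (ZMod 2) (ZMod 2) (fun x => g⁻¹ • x)
      map_one' := by
        apply LinearMap.ext
        intro f
        funext x
        change f ((1 : G)⁻¹ • x) = f x
        rw [inv_one, one_smul]
      map_mul' := by
        intro g h
        apply LinearMap.ext
        intro f
        funext x
        change f ((g * h)⁻¹ • x) = f (h⁻¹ • g⁻¹ • x)
        rw [mul_inv_rev, mul_smul] }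
  have hρ : ∀ g f x, ρ g f x = f (g⁻¹ • x) := fun _ _ _ => rfl
  let N : Submodule (ZMod 2) (X → ZMod 2) :=
    C ⊓ LinearMap.ker (LinearMap.funLeft (ZMod 2) (ZMod 2)
      (fun x : {x // ψ x ∈ I} => (x : X)))
  have hN : ∀ f, f ∈ N ↔ f ∈ C ∧ ∀ x, ψ x ∈ I → f x = 0 := by
    intro f
    rw [Submodule.mem_inf, LinearMap.mem_ker]
    refine and_congr_right fun _ => ⟨fun h x hx => congrFun h ⟨x, hx⟩, fun h => ?_⟩
    funext x
    exact h x x.2
  have hNbot : N = ⊥ := by
    by_contra hne
    obtain ⟨f, hf, hf0, hfix⟩ := exists_fixed hG ρ N (by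
      intro g f hf
      rw [hN] at hf ⊢
      refine ⟨hC g⁻¹ f hf.1, fun x hx => ?_⟩
      rw [hρ]
      apply hf.2
      rw [hinv]
      exact hx) hne
    rw [hN] at hf
    have hconst : ∀ x x', ψ x = ψ x' → f x = f x' := by
      intro x x' hxx
      obtain ⟨g, rfl⟩ := horb x x' hxx
      have := congrFun (hfix g) (g • x)
      rw [hρ, inv_smul_smul] at this
      exact this
    -- the induced function
    let h : Z → ZMod 2 := fun z => if hz : ∃ x, ψ x = z then f hz.choose else 0
    have hh : ∀ x, h (ψ x) = f x := by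
      intro x
      have hz : ∃ x', ψ x' = ψ x := ⟨x, rfl⟩
      simp only [h, dif_pos hz]
      exact hconst _ _ hz.choose_spec
    have hmem : h ∈ pull ψ C := by
      rw [mem_pull]
      have : (fun x => h (ψ x)) = f := funext hh
      rw [this]
      exact hf.1
    have h0 : h = 0 := by
      apply hI' h hmem
      intro z hz
      by_cases hex : ∃ x, ψ x = z
      · obtain ⟨x, rfl⟩ := hex
        rw [hh]
        exact hf.2 x hz
      · simp only [h, dif_neg hex]
    apply hf0
    funext x
    rw [← hh, h0]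
    rfl
  let Φ : C →ₗ[ZMod 2] ({x // ψ x ∈ I} → ZMod 2) :=
    (LinearMap.funLeft (ZMod 2) (ZMod 2) (fun x : {x // ψ x ∈ I} => (x : X))) ∘ₗ C.subtype
  have hΦ : Function.Injective Φ := by
    rw [← LinearMap.ker_eq_bot, LinearMap.ker_eq_bot']
    intro f hf
    have : (f : X → ZMod 2) ∈ N := by
      rw [hN]
      exact ⟨f.2, fun x hx => congrFun hf ⟨x, hx⟩⟩
    rw [hNbot, Submodule.mem_bot] at this
    exact Subtype.ext this
  have h1 := LinearMap.finrank_le_finrank_of_injective hΦ
  rw [Module.finrank_fintype_fun_eq_card] at h1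
  have h2 : Fintype.card {x // ψ x ∈ I} ≤ s * I.card := by
    rw [Fintype.card_subtype]
    have h3 : (univ.filter fun x => ψ x ∈ I).card =
        ∑ z ∈ I, ((univ.filter fun x => ψ x ∈ I).filter fun x => ψ x = z).card :=
      Finset.card_eq_sum_card_fiberwise (fun x hx => by
        simpa using hx)
    rw [h3]
    calc _ ≤ ∑ z ∈ I, s := by
          apply Finset.sum_le_sum
          intro z _
          refine le_trans (Finset.card_le_card ?_) (hfib z)
          intro x hx
          simp only [Finset.mem_filter, Finset.mem_univ, true_and] at hx ⊢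
          exact hx.2
      _ = s * I.card := by rw [Finset.sum_const, smul_eq_mul, mul_comm]
  refine h1.trans (h2.trans ?_)
  exact Nat.mul_le_mul_left _ hI

/-- main theorem, with an equivariant map. -/
theorem main_aux (ℓ : ℕ) (δ ε : ℝ) (hδ : 0 < δ) (hε : 0 < ε) : ∃ M : ℕ, ∀ m ≥ M,
    ∀ (P Ω : Type) [Group P] [Fintype Ω] [MulAction P Ω]
      (φ : P →* Multiplicative (Fin m → ZMod 2)) (π : Ω → Fin m → ZMod 2),
      IsPGroup 2 P → Function.Surjective φ →
      (∀ (g : P) (ω : Ω), π (g • ω) = Multiplicative.toAdd (φ g) + π ω) →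
      Nat.card (MulAction.orbitRel.Quotient P Ω) ≤ ℓ →
      ∀ C : Submodule (ZMod 2) (Ω → ZMod 2), (∀ g : P, ∀ f ∈ C, (fun ω => f (g • ω)) ∈ C) →
      (∀ f ∈ C, f ≠ 0 → δ * Fintype.card Ω ≤ hammingNorm f) →
      (finrank (ZMod 2) C : ℝ) ≤ ε * Fintype.card Ω := by
  classical
  obtain ⟨u0, hu0⟩ := exists_pow_lt_of_lt_one hδ (show (1 / 2 : ℝ) < 1 by norm_num)
  obtain ⟨u, hu, hu1⟩ : ∃ u : ℕ, 1 ≤ u ∧ (1 / 2 : ℝ) ^ u < δ := by
    refine ⟨u0 + 1, by omega, lt_of_le_of_lt ?_ hu0⟩
    exact pow_le_pow_of_le_one (by norm_num) (by norm_num) (Nat.le_succ _)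
  obtain ⟨M, hM⟩ := spaces hu (ℓ + 1) ε hε
  refine ⟨M, ?_⟩
  intro m hm P Ω _ _ _ φ π hP hφ hπ hℓ C hC hwt
  rcases isEmpty_or_nonempty Ω with hΩ | ⟨⟨ω0⟩⟩
  · have h1 : finrank (ZMod 2) C ≤ 0 := by
      refine (Submodule.finrank_le _).trans ?_
      rw [Module.finrank_fintype_fun_eq_card, Fintype.card_eq_zero]
    have h2 : finrank (ZMod 2) C = 0 := by omega
    rw [h2]
    push_cast
    positivity
  have hΩpos : (0 : ℝ) < Fintype.card Ω := by
    have : 0 < Fintype.card Ω := Fintype.card_pos_iff.2 ⟨ω0⟩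
    exact_mod_cast this
  let O := MulAction.orbitRel.Quotient P Ω
  have hOfin : Finite O := inferInstance
  have hOft : Fintype O := Fintype.ofFinite O
  let cl : Ω → O := fun ω => Quotient.mk _ ω
  have hcl : ∀ (g : P) ω, cl (g • ω) = cl ω := by
    intro g ω
    apply Quotient.sound
    exact MulAction.mem_orbit ω g
  have hcl' : ∀ ω ω', cl ω = cl ω' → ∃ g : P, g • ω = ω' := by
    intro ω ω' h
    have h1 : MulAction.orbitRel P Ω ω' ω := Quotient.exact h.symm
    rw [MulAction.orbitRel_apply] at h1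
    exact h1
  have hcls : Function.Surjective cl := Quotient.mk_surjective
  let ψ : Ω → (Fin m → ZMod 2) × O := fun ω => (π ω, cl ω)
  have hψs : Function.Surjective ψ := by
    rintro ⟨v, o⟩
    obtain ⟨ω, rfl⟩ := hcls o
    obtain ⟨g, hg⟩ := hφ (Multiplicative.ofAdd (v - π ω))
    refine ⟨g • ω, ?_⟩
    simp only [ψ, hπ, hg, hcl, toAdd_ofAdd, sub_add_cancel]
  have hψinv : ∀ (g : φ.ker) ω, ψ (g • ω) = ψ ω := by
    intro g ω
    have h1 : φ (g : P) = 1 := g.2
    change (π ((g : P) • ω), cl ((g : P) • ω)) = _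
    rw [hπ, h1, hcl, toAdd_one, zero_add]
  have hψorb : ∀ ω ω', ψ ω = ψ ω' → ∃ g : φ.ker, g • ω = ω' := by
    intro ω ω' h
    simp only [ψ, Prod.mk.injEq] at h
    obtain ⟨g, rfl⟩ := hcl' ω ω' h.2
    refine ⟨⟨g, ?_⟩, rfl⟩
    rw [MonoidHom.mem_ker]
    have h1 := h.1
    rw [hπ] at h1
    have h2 : Multiplicative.toAdd (φ g) = 0 := by
      have := h1.symm
      simpa using this
    exact h2
  -- the fibres over one orbit have the same size
  let fib : (Fin m → ZMod 2) × O → ℕ := fun z => (univ.filter fun ω => ψ ω = z).card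
  have hfibeq : ∀ (v v' : Fin m → ZMod 2) (o : O), fib (v, o) = fib (v', o) := by
    intro v v' o
    obtain ⟨g, hg⟩ := hφ (Multiplicative.ofAdd (v' - v))
    refine Finset.card_nbij' (i := fun ω => g • ω) (j := fun ω => g⁻¹ • ω) ?_ ?_ ?_ ?_
    · intro ω hω
      simp only [Finset.coe_filter, Finset.mem_univ, true_and, Set.mem_setOf_eq, ψ,
        Prod.mk.injEq] at hω ⊢
      rw [hπ, hg, toAdd_ofAdd, hω.1, hcl]
      exact ⟨by abel, hω.2⟩
    · intro ω hω
      simp only [Finset.coe_filter, Finset.mem_univ, true_and, Set.mem_setOf_eq, ψ,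
        Prod.mk.injEq] at hω ⊢
      rw [hπ, map_inv, hg, toAdd_inv, toAdd_ofAdd, hω.1, hcl]
      exact ⟨by abel, hω.2⟩
    · intro ω _
      simp
    · intro ω _
      simp
  obtain ⟨o1, -, ho1⟩ := Finset.exists_max_image (univ : Finset O) (fun o => fib (0, o))
    ⟨cl ω0, Finset.mem_univ _⟩
  set s := fib (0, o1) with hs
  have hfib : ∀ z, (univ.filter fun ω => ψ ω = z).card ≤ s := by
    rintro ⟨v, o⟩
    have h1 : fib (v, o) = fib (0, o) := hfibeq _ _ _
    change fib (v, o) ≤ s
    rw [h1]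
    exact ho1 o (Finset.mem_univ _)
  have hcardΩ : s * Fintype.card (Fin m → ZMod 2) ≤ Fintype.card Ω := by
    have h1 : (univ : Finset Ω).card = ∑ z : (Fin m → ZMod 2) × O,
        ((univ : Finset Ω).filter fun x => ψ x = z).card :=
      Finset.card_eq_sum_card_fiberwise (fun x _ => Finset.mem_univ _)
    rw [Finset.card_univ] at h1
    rw [h1, Fintype.sum_prod_type]
    calc s * Fintype.card (Fin m → ZMod 2) = ∑ v : Fin m → ZMod 2, fib (v, o1) := by
          rw [Finset.sum_congr rfl (fun v _ => hfibeq v 0 o1), Finset.sum_const, Finset.card_univ,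
            smul_eq_mul, mul_comm]
      _ ≤ _ := by
          apply Finset.sum_le_sum
          intro v _
          exact Finset.single_le_sum (f := fun o => fib (v, o)) (fun _ _ => Nat.zero_le _)
            (Finset.mem_univ o1)
  have hqd := quot_dim' (G := φ.ker) (hP.to_subgroup _) ψ hψinv hψorb s
    hfib C (fun g f hf => hC g f hf)
  -- the code with values in `O → F`
  let L : ((Fin m → ZMod 2) → O → ZMod 2) →ₗ[ZMod 2] (Ω → ZMod 2) :=
    { toFun := fun h ω => h (π ω) (cl ω)
      map_add' := fun _ _ => rfl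
      map_smul' := fun _ _ => rfl }
  let D : Submodule (ZMod 2) ((Fin m → ZMod 2) → O → ZMod 2) := C.comap L
  have hD : ∀ h, h ∈ D ↔ (fun ω => h (π ω) (cl ω)) ∈ C := fun _ => Iff.rfl
  have hle : finrank (ZMod 2) (pull ψ C) ≤ finrank (ZMod 2) D := by
    let Ψ : pull ψ C →ₗ[ZMod 2] D :=
      { toFun := fun h => ⟨fun v o => (h : (Fin m → ZMod 2) × O → ZMod 2) (v, o), h.2⟩
        map_add' := fun _ _ => rfl
        map_smul' := fun _ _ => rfl }
    apply LinearMap.finrank_le_finrank_of_injective (f := Ψ)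
    intro h h' hh
    apply Subtype.ext
    funext x
    exact congrFun (congrFun (congrArg Subtype.val hh) x.1) x.2
  have hDTI : TI D := by
    intro v h hh
    rw [hD] at hh ⊢
    obtain ⟨g, hg⟩ := hφ (Multiplicative.ofAdd v)
    have h1 := hC g _ hh
    simp only [hπ, hg, hcl, toAdd_ofAdd] at h1
    simpa only [add_comm v] using h1
  have hDG : Good u D := by
    intro β hβ h hh hsupp
    rw [hD] at hh
    have hfibβ : ∀ y, (univ.filter fun ω => β (π ω) = y).card =
        (univ.filter fun ω => β (π ω) = 0).card := by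
      intro y
      obtain ⟨v, rfl⟩ := hβ y
      obtain ⟨g, hg⟩ := hφ (Multiplicative.ofAdd v)
      symm
      refine Finset.card_nbij' (i := fun ω => g • ω) (j := fun ω => g⁻¹ • ω) ?_ ?_ ?_ ?_
      · intro ω hω
        simp only [Finset.coe_filter, Finset.mem_univ, true_and, Set.mem_setOf_eq] at hω ⊢
        rw [hπ, hg, toAdd_ofAdd, map_add, hω, add_zero]
      · intro ω hω
        simp only [Finset.coe_filter, Finset.mem_univ, true_and, Set.mem_setOf_eq] at hω ⊢
        rw [hπ, map_inv, hg, toAdd_inv, toAdd_ofAdd, map_add, map_neg, hω, neg_add_cancel]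
      · intro ω _
        simp
      · intro ω _
        simp
    have hcount : Fintype.card Ω = 2 ^ u * (univ.filter fun ω => β (π ω) = 0).card := by
      have h1 : (univ : Finset Ω).card = ∑ y : Fin u → ZMod 2,
          ((univ : Finset Ω).filter fun x => β (π x) = y).card :=
        Finset.card_eq_sum_card_fiberwise (fun x _ => Finset.mem_univ _)
      rw [Finset.card_univ] at h1
      rw [h1, Finset.sum_congr rfl (fun z _ => hfibβ z), Finset.sum_const, Finset.card_univ,
        smul_eq_mul]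
      simp
    have hf0 : (fun ω => h (π ω) (cl ω)) = 0 := by
      by_contra hne
      have h1 := hwt _ hh hne
      have h2 : hammingNorm (fun ω => h (π ω) (cl ω)) ≤
          (univ.filter fun ω => β (π ω) = 0).card := by
        apply Finset.card_le_card
        intro ω hω
        simp only [Finset.mem_filter, Finset.mem_univ, true_and] at hω ⊢
        by_contra hb
        apply hω
        rw [hsupp _ hb]
        rfl
      have h3 : ((univ.filter fun ω => β (π ω) = 0).card : ℝ) = (1 / 2) ^ u * Fintype.card Ω := by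
        rw [hcount]
        push_cast
        rw [← mul_assoc, ← mul_pow]
        norm_num
      have h4 : (hammingNorm (fun ω => h (π ω) (cl ω)) : ℝ) ≤ (1 / 2) ^ u * Fintype.card Ω := by
        rw [← h3]
        exact_mod_cast h2
      have h5 : (1 / 2 : ℝ) ^ u * Fintype.card Ω < δ * Fintype.card Ω :=
        mul_lt_mul_of_pos_right hu1 hΩpos
      linarith
    funext v
    funext o
    obtain ⟨ω, hω⟩ := hψs (v, o)
    simp only [ψ, Prod.mk.injEq] at hω
    have := congrFun hf0 ω
    simp only [hω.1, hω.2] at this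
    exact this
  have hfin := hM (Fin m → ZMod 2) (O → ZMod 2) D (by simpa using hm) (by
    rw [Module.finrank_fintype_fun_eq_card, ← Nat.card_eq_fintype_card]
    exact Nat.lt_succ_of_le hℓ) hDTI hDG
  calc (finrank (ZMod 2) C : ℝ) ≤ s * finrank (ZMod 2) D := by
        exact_mod_cast hqd.trans (Nat.mul_le_mul_left _ hle)
    _ ≤ s * (ε * Fintype.card (Fin m → ZMod 2)) :=
        mul_le_mul_of_nonneg_left hfin (Nat.cast_nonneg _)
    _ = ε * (s * Fintype.card (Fin m → ZMod 2) : ℕ) := by
        push_cast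
        ring
    _ ≤ ε * Fintype.card Ω := by
        apply mul_le_mul_of_nonneg_left _ hε.le
        exact_mod_cast hcardΩ

/-- main theorem. -/
theorem main (ℓ : ℕ) (δ ε : ℝ) (hδ : 0 < δ) (hε : 0 < ε) : ∃ M : ℕ, ∀ m ≥ M,
    ∀ (P Ω : Type) [Group P] [Fintype Ω] [MulAction P Ω]
      (φ : P →* Multiplicative (Fin m → ZMod 2)),
      IsPGroup 2 P → Function.Surjective φ →
      (∀ ω : Ω, MulAction.stabilizer P ω ≤ φ.ker) →
      Nat.card (MulAction.orbitRel.Quotient P Ω) ≤ ℓ →
      ∀ C : Submodule (ZMod 2) (Ω → ZMod 2), (∀ g : P, ∀ f ∈ C, (fun ω => f (g • ω)) ∈ C) →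
      (∀ f ∈ C, f ≠ 0 → δ * Fintype.card Ω ≤ hammingNorm f) →
      (finrank (ZMod 2) C : ℝ) ≤ ε * Fintype.card Ω := by
  obtain ⟨M, hM⟩ := main_aux ℓ δ ε hδ hε
  refine ⟨M, ?_⟩
  intro m hm P Ω _ _ _ φ hP hφ hst hℓ C hC hwt
  -- base points
  let b : Ω → Ω := fun ω => (Quotient.mk (MulAction.orbitRel P Ω) ω).out
  have hb : ∀ ω, ∃ g : P, g • b ω = ω := by
    intro ω
    have h1 : MulAction.orbitRel P Ω (b ω) ω := Quotient.exact (Quotient.out_eq _)
    rw [MulAction.orbitRel_apply] at h1
    obtain ⟨g, hg⟩ := h1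
    refine ⟨g⁻¹, ?_⟩
    change g⁻¹ • b ω = ω
    have hg' : g • ω = b ω := hg
    rw [← hg', inv_smul_smul]
  have hbg : ∀ (g : P) ω, b (g • ω) = b ω := by
    intro g ω
    have h1 : (Quotient.mk (MulAction.orbitRel P Ω) (g • ω)) = Quotient.mk _ ω :=
      Quotient.sound (MulAction.mem_orbit ω g)
    simp only [b, h1]
  choose t ht using hb
  refine hM m hm P Ω φ (fun ω => Multiplicative.toAdd (φ (t ω))) hP hφ ?_ hℓ C hC hwt
  intro g ω
  have h1 : (t (g • ω))⁻¹ * (g * t ω) ∈ MulAction.stabilizer P (b ω) := by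
    rw [MulAction.mem_stabilizer_iff, mul_smul, mul_smul, ht ω, inv_smul_eq_iff,
      ← hbg g ω, ht (g • ω)]
  have h2 := hst _ h1
  rw [MonoidHom.mem_ker, map_mul, map_inv, map_mul, inv_mul_eq_one] at h2
  change Multiplicative.toAdd (φ (t (g • ω))) = _
  rw [h2, toAdd_mul]

end H70.TG
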